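import Pool.Agent.H249.ER.Stm

/-!
# Project ER (helper249), jobs TB and TC (helper162)

`tb : S_TA → S_TB`, `tc : S_TA → S_TC`.
-/

set_option autoImplicit false

open Finset BigOperators
open scoped Classical

namespace Pool.Agent.Q162.ER

open Pool.Agent.H249.ER

/-- powers of `a = n ^ (1/3)` -/
lemma pw (n : ℕ) : ((n : ℝ) ^ (1 / 3 : ℝ)) ^ 3 = n ∧ (n : ℝ) ^ (2 / 3 : ℝ) = ((n : ℝ) ^ (1 / 3 : ℝ)) ^ 2 ∧
    (n : ℝ) ^ (4 / 3 : ℝ) = ((n : ℝ) ^ (1 / 3 : ℝ)) ^ 4 := by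
  have hn : (0 : ℝ) ≤ n := Nat.cast_nonneg n
  refine ⟨?_, ?_, ?_⟩
  · rw [← Real.rpow_natCast, ← Real.rpow_mul hn]
    norm_num
  · rw [← Real.rpow_natCast, ← Real.rpow_mul hn]
    norm_num
  · rw [← Real.rpow_natCast, ← Real.rpow_mul hn]
    norm_num

lemma big (A : ℝ) : ∃ N : ℕ, ∀ n : ℕ, N ≤ n → A ≤ (n : ℝ) ^ (1 / 3 : ℝ) := by
  obtain ⟨N, hN⟩ := Filter.eventually_atTop.1 (((tendsto_rpow_atTop (show (0 : ℝ) < 1 / 3 by norm_num)).comp
    tendsto_natCast_atTop_atTop).eventually_ge_atTop A)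
  exact ⟨N, fun n hn => hN n hn⟩

/-- `exp (-(x + 2 x²)) ≤ 1 - x` -/
lemma ge_exp {x : ℝ} (h0 : 0 ≤ x) (h1 : x ≤ 1 / 2) : Real.exp (-(x + 2 * x ^ 2)) ≤ 1 - x := by
  have hp : 0 < 1 - x := by linarith
  have h2 := Real.one_sub_inv_le_log_of_pos hp
  have h3 : (1 - x)⁻¹ ≤ 1 + x + 2 * x ^ 2 := by
    rw [inv_eq_one_div, div_le_iff₀ hp]
    nlinarith [mul_nonneg h0 h0, mul_nonneg (mul_nonneg h0 h0) (show 0 ≤ 1 - 2 * x by linarith)]
  calc Real.exp (-(x + 2 * x ^ 2)) ≤ Real.exp (Real.log (1 - x)) := Real.exp_le_exp.2 (by linarith)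
    _ = 1 - x := Real.exp_log hp

/-- `1 - y ≤ exp (-(y + y² / 4))` -/
lemma le_exp' {y : ℝ} (h0 : 0 ≤ y) (h1 : y ≤ 1) : 1 - y ≤ Real.exp (-(y + y ^ 2 / 4)) := by
  have e1 : Real.exp (-(y + y ^ 2 / 4)) = (Real.exp (-((y + y ^ 2 / 4) / 2))) ^ 2 := by
    rw [← Real.exp_nat_mul]
    congr 1
    push_cast
    ring
  have e2 := Real.add_one_le_exp (-((y + y ^ 2 / 4) / 2))
  have e3 : 0 ≤ -((y + y ^ 2 / 4) / 2) + 1 := by nlinarith
  rw [e1]
  calc 1 - y ≤ (-((y + y ^ 2 / 4) / 2) + 1) ^ 2 := by nlinarith [sq_nonneg (y), sq_nonneg (y ^ 2), mul_nonneg h0 (sq_nonneg y)]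
    _ ≤ _ := pow_le_pow_left₀ e3 e2 2

/-- a lower bound for `1 - exp (-w)` -/
lemma one_sub_exp {w u v : ℝ} (hw : w = u - v) (hu : 0 ≤ u) (hu1 : u ≤ 1) (hv : 0 ≤ v) (hv1 : v ≤ 1 / 2) :
    u / 2 - 2 * v ≤ 1 - Real.exp (-w) := by
  rcases le_or_gt 0 w with h | h
  · have h1 := Real.add_one_le_exp w
    have h2 : Real.exp (-w) ≤ 1 / (1 + w) := by
      rw [Real.exp_neg, inv_eq_one_div]
      exact one_div_le_one_div_of_le (by linarith) (by linarith)
    have h3 : 1 / (1 + w) ≤ 1 - w / 2 := by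
      rw [div_le_iff₀ (by linarith)]
      nlinarith [mul_nonneg h (show 0 ≤ 1 - w by linarith)]
    linarith
  · have h1 := Real.add_one_le_exp w
    have h4 : -w ≤ 1 / 2 := by linarith
    have h2 : Real.exp (-w) ≤ 1 / (1 + w) := by
      rw [Real.exp_neg, inv_eq_one_div]
      exact one_div_le_one_div_of_le (by linarith) (by linarith)
    have h3 : 1 / (1 + w) ≤ 1 - 2 * w := by
      rw [div_le_iff₀ (by linarith)]
      nlinarith [mul_nonneg (show 0 ≤ -w by linarith) (show 0 ≤ 1 + 2 * w by linarith)]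
    linarith

lemma pc_eq (lam : ℝ) (n : ℕ) : pc lam n = 1 / ((n : ℝ) ^ (1 / 3 : ℝ)) ^ 3 + lam / ((n : ℝ) ^ (1 / 3 : ℝ)) ^ 4 := by
  obtain ⟨h1, _, h3⟩ := pw n
  unfold pc
  rw [h1, h3]

/-- bounds for the edge probability -/
lemma pc_bd {lam a p : ℝ} (ha2 : 4 ≤ a) (ha : 2 * (|lam| + 1) ≤ a) (hp : p = 1 / a ^ 3 + lam / a ^ 4) :
    1 / (2 * a ^ 3) ≤ p ∧ p ≤ 2 / a ^ 3 ∧ p ≤ 1 / 2 ∧ (p + 2 * p ^ 2) * a ^ 3 ≤ 1 + (|lam| + 1) / a := by
  have ha0 : 0 < a := by linarith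
  have hl := abs_nonneg lam
  have e1 : p = (1 + lam / a) / a ^ 3 := by
    rw [hp]
    field_simp
  have e2 : |lam / a| ≤ 1 / 2 := by
    rw [abs_div, abs_of_pos ha0, div_le_iff₀ ha0]
    linarith
  rw [abs_le] at e2
  have e3 : 1 / (2 * a ^ 3) ≤ p := by
    rw [e1, div_le_div_iff₀ (by positivity) (by positivity)]
    nlinarith [pow_pos ha0 3]
  have e4 : p ≤ 2 / a ^ 3 := by
    rw [e1]
    apply div_le_div_of_nonneg_right _ (by positivity)
    linarith
  have e5 : (64 : ℝ) ≤ a ^ 3 := by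
    calc (64 : ℝ) = 4 ^ 3 := by norm_num
      _ ≤ a ^ 3 := pow_le_pow_left₀ (by norm_num) ha2 3
  have e0 : 0 ≤ p := le_trans (by positivity) e3
  refine ⟨e3, e4, ?_, ?_⟩
  · refine e4.trans ?_
    rw [div_le_iff₀ (by positivity)]
    linarith
  · have e6 : p * a ^ 3 = 1 + lam / a := by
      rw [e1]
      field_simp
    have e7 : 2 * p ^ 2 * a ^ 3 ≤ 1 / a := by
      calc 2 * p ^ 2 * a ^ 3 ≤ 2 * (2 / a ^ 3) ^ 2 * a ^ 3 := by gcongr
        _ = 8 / a ^ 3 := by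
            field_simp
            ring
        _ ≤ 1 / a := by
            rw [div_le_div_iff₀ (by positivity) ha0]
            nlinarith [sq_nonneg a, mul_pos ha0 ha0]
    have e8 : lam / a ≤ |lam| / a := div_le_div_of_nonneg_right (le_abs_self _) ha0.le
    have e9 : (|lam| + 1) / a = |lam| / a + 1 / a := by ring
    rw [e9]
    nlinarith

/-- one term of the identity with `m = 1` -/
lemma term {a L p : ℝ} {n k : ℕ} (ha : 0 < a) (hn : a ^ 3 = n) (hn2 : 2 ≤ n) (hL : 0 ≤ L) (hLa : L / a ≤ 1 / 2) (hp0 : 0 ≤ p)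
    (hp1 : p ≤ 1 / 2) (hpp : (p + 2 * p ^ 2) * a ^ 3 ≤ 1 + L / a) (hk : 1 ≤ k) (hkn : k ≤ n) :
    ((n - k : ℕ) : ℝ) / (1 - p) ^ k ≤ ((n : ℝ) - 1) / (1 - p) *
      (1 - (((k : ℝ) - 1) / ((n : ℝ) - 1)) ^ 2 / 8 + 2 * (L / a) * (((k : ℝ) - 1) / ((n : ℝ) - 1))) := by
  have hnr : (2 : ℝ) ≤ n := by exact_mod_cast hn2
  have hn1 : (0 : ℝ) < (n : ℝ) - 1 := by linarith
  have hkr : (1 : ℝ) ≤ k := by exact_mod_cast hk
  have hknr : (k : ℝ) ≤ n := by exact_mod_cast hkn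
  set y : ℝ := ((k : ℝ) - 1) / ((n : ℝ) - 1) with hy
  have hy0 : 0 ≤ y := div_nonneg (by linarith) hn1.le
  have hy1 : y ≤ 1 := by
    rw [hy, div_le_one hn1]
    linarith
  have hyx : (k : ℝ) - 1 = y * ((n : ℝ) - 1) := by
    rw [hy]
    field_simp
  have hq : 0 < 1 - p := by linarith
  obtain ⟨j, rfl⟩ : ∃ j, k = j + 1 := ⟨k - 1, by omega⟩
  have hj : (j : ℝ) = y * ((n : ℝ) - 1) := by
    rw [← hyx]
    push_cast
    ring
  rw [Nat.cast_sub hkn]
  have e1 : (n : ℝ) - ((j + 1 : ℕ) : ℝ) = ((n : ℝ) - 1) * (1 - y) := by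
    push_cast
    rw [hj]
    ring
  rw [e1]
  have e2 : ((1 - p) ^ j)⁻¹ ≤ Real.exp ((1 + L / a) * y) := by
    have h1 := ge_exp hp0 hp1
    have h2 : Real.exp (-((1 + L / a) * y)) ≤ (1 - p) ^ j := by
      calc Real.exp (-((1 + L / a) * y)) ≤ Real.exp ((j : ℕ) * (-(p + 2 * p ^ 2))) := by
            apply Real.exp_le_exp.2
            rw [hj]
            have h3 : (p + 2 * p ^ 2) * ((n : ℝ) - 1) ≤ 1 + L / a := by
              refine le_trans ?_ hpp
              rw [hn]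
              apply mul_le_mul_of_nonneg_left _ (by positivity)
              linarith
            nlinarith
        _ = (Real.exp (-(p + 2 * p ^ 2))) ^ j := by rw [Real.exp_nat_mul]
        _ ≤ (1 - p) ^ j := pow_le_pow_left₀ (Real.exp_pos _).le h1 j
    rw [inv_le_comm₀ (by positivity) (Real.exp_pos _), ← Real.exp_neg]
    exact h2
  have e3 : (1 - y) * Real.exp ((1 + L / a) * y) ≤ 1 - y ^ 2 / 8 + 2 * (L / a) * y := by
    have h1 := le_exp' hy0 hy1
    have h2 := one_sub_exp (w := y ^ 2 / 4 - L / a * y) (u := y ^ 2 / 4) (v := L / a * y) rfl (by positivity) (by nlinarith)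
      (by positivity) (by nlinarith [div_nonneg hL ha.le])
    calc (1 - y) * Real.exp ((1 + L / a) * y) ≤ Real.exp (-(y + y ^ 2 / 4)) * Real.exp ((1 + L / a) * y) :=
          mul_le_mul_of_nonneg_right h1 (Real.exp_pos _).le
      _ = Real.exp (-(y ^ 2 / 4 - L / a * y)) := by
          rw [← Real.exp_add]
          congr 1
          ring
      _ ≤ _ := by linarith
  calc ((n : ℝ) - 1) * (1 - y) / (1 - p) ^ (j + 1) = ((n : ℝ) - 1) / (1 - p) * ((1 - y) * ((1 - p) ^ j)⁻¹) := by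
        rw [pow_succ]
        field_simp
    _ ≤ ((n : ℝ) - 1) / (1 - p) * ((1 - y) * Real.exp ((1 + L / a) * y)) := by
        apply mul_le_mul_of_nonneg_left _ (by positivity)
        exact mul_le_mul_of_nonneg_left e2 (by linarith)
    _ ≤ _ := mul_le_mul_of_nonneg_left e3 (by positivity)

theorem tb (h : S_TA) : S_TB := by
  intro lam
  obtain ⟨C0, c0, hC0, hc0, N0, hTA⟩ := h lam
  obtain ⟨L, hL⟩ : ∃ L : ℝ, L = |lam| + 1 := ⟨_, rfl⟩
  have hL1 : 1 ≤ L := by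
    rw [hL]
    linarith [abs_nonneg lam]
  set c' : ℝ := min c0 (32 * L) with hc'
  have hc'0 : 0 < c' := lt_min hc0 (by linarith)
  obtain ⟨N1, hN1⟩ := big (max 4 (max (2 * L) (1 / c')))
  refine ⟨64 * L / c' * (C0 * Real.sqrt c') + 1 / L + 1, by positivity, max N0 (max N1 2), ?_⟩
  intro n hn P hP
  have g0 : N0 ≤ n := (le_max_left _ _).trans hn
  have g1 := hN1 n (((le_max_left _ _).trans (le_max_right _ _)).trans hn)
  have g2 : 2 ≤ n := ((le_max_right _ _).trans (le_max_right _ _)).trans hn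
  obtain ⟨hw1, hw2, hw4⟩ := pw n
  have hpc := pc_eq lam n
  set a : ℝ := (n : ℝ) ^ (1 / 3 : ℝ) with ha
  have a4 : 4 ≤ a := (le_max_left _ _).trans g1
  have aL : 2 * L ≤ a := ((le_max_left _ _).trans (le_max_right _ _)).trans g1
  have ac : 1 / c' ≤ a := ((le_max_right _ _).trans (le_max_right _ _)).trans g1
  have a0 : 0 < a := by linarith
  obtain ⟨hP0, hP1, hPm⟩ := hP
  obtain ⟨p1, p2, p3, p4⟩ := pc_bd a4 (hL ▸ aL) hpc
  set p : ℝ := pc lam n with hp
  have hp0 : 0 ≤ p := le_trans (by positivity) p1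
  have hq : 0 < 1 - p := by linarith
  have hLa : L / a ≤ 1 / 2 := by
    rw [div_le_iff₀ a0]
    linarith
  have hnr : (2 : ℝ) ≤ n := by exact_mod_cast g2
  have hn1 : (0 : ℝ) < (n : ℝ) - 1 := by linarith
  -- the identity with m = 1
  have hid := hPm 1 (by omega)
  have hid' : ∑ k ∈ Finset.Icc 1 n, P k * (((n - k : ℕ) : ℝ) / (1 - p) ^ k) = (n : ℝ) - 1 := by
    rw [Nat.choose_one_right, Nat.cast_sub (by omega), Nat.cast_one] at hid
    rw [← hid]
    apply sum_congr rfl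
    intro k _
    rw [Nat.choose_one_right, one_mul]
  set X1 : ℝ := ∑ k ∈ Finset.Icc 1 n, P k * ((k : ℝ) - 1) with hX1
  set X2 : ℝ := ∑ k ∈ Finset.Icc 1 n, P k * ((k : ℝ) - 1) ^ 2 with hX2
  have hX1' : 0 ≤ X1 := by
    apply sum_nonneg
    intro k hk
    rw [mem_Icc] at hk
    have : (1 : ℝ) ≤ k := by exact_mod_cast hk.1
    exact mul_nonneg (hP0 k) (by linarith)
  have key : (n : ℝ) - 1 ≤ ((n : ℝ) - 1) / (1 - p) * (1 - X2 / ((n : ℝ) - 1) ^ 2 / 8 + 2 * (L / a) * (X1 / ((n : ℝ) - 1))) := by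
    calc (n : ℝ) - 1 = ∑ k ∈ Finset.Icc 1 n, P k * (((n - k : ℕ) : ℝ) / (1 - p) ^ k) := hid'.symm
      _ ≤ ∑ k ∈ Finset.Icc 1 n, P k * (((n : ℝ) - 1) / (1 - p) *
            (1 - (((k : ℝ) - 1) / ((n : ℝ) - 1)) ^ 2 / 8 + 2 * (L / a) * (((k : ℝ) - 1) / ((n : ℝ) - 1)))) := by
          apply sum_le_sum
          intro k hk
          rw [mem_Icc] at hk
          exact mul_le_mul_of_nonneg_left (term a0 hw1 g2 (by linarith) hLa hp0 p3 (by rw [hL]; exact p4) hk.1 hk.2) (hP0 k)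
      _ = ((n : ℝ) - 1) / (1 - p) * ((∑ k ∈ Finset.Icc 1 n, P k) - X2 / ((n : ℝ) - 1) ^ 2 / 8 + 2 * (L / a) * (X1 / ((n : ℝ) - 1))) := by
          rw [hX1, hX2, sum_div, sum_div, sum_div, mul_sum, ← sum_sub_distrib, ← sum_add_distrib, mul_sum]
          apply sum_congr rfl
          intro k _
          field_simp
      _ = _ := by rw [hP1]
  have key2 : X2 / ((n : ℝ) - 1) ^ 2 / 8 ≤ p + 2 * (L / a) * (X1 / ((n : ℝ) - 1)) := by
    rw [div_mul_eq_mul_div, le_div_iff₀ hq, mul_le_mul_iff_right₀ hn1] at key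
    linarith
  have key3 : X2 ≤ 16 * a ^ 3 + 16 * L * a ^ 2 * X1 := by
    have h1 : X2 = X2 / ((n : ℝ) - 1) ^ 2 / 8 * (8 * ((n : ℝ) - 1) ^ 2) := by field_simp
    have h2 : (p + 2 * (L / a) * (X1 / ((n : ℝ) - 1))) * (8 * ((n : ℝ) - 1) ^ 2) =
        8 * p * ((n : ℝ) - 1) ^ 2 + 16 * (L / a) * X1 * ((n : ℝ) - 1) := by
      field_simp
      ring
    have h3 : 8 * p * ((n : ℝ) - 1) ^ 2 ≤ 16 * a ^ 3 := by
      calc 8 * p * ((n : ℝ) - 1) ^ 2 ≤ 8 * (2 / a ^ 3) * (a ^ 3) ^ 2 := by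
            have : ((n : ℝ) - 1) ^ 2 ≤ (a ^ 3) ^ 2 := by
              apply pow_le_pow_left₀ hn1.le
              rw [hw1]
              linarith
            gcongr
        _ = 16 * a ^ 3 := by
            field_simp
            ring
    have h4 : 16 * (L / a) * X1 * ((n : ℝ) - 1) ≤ 16 * L * a ^ 2 * X1 := by
      calc 16 * (L / a) * X1 * ((n : ℝ) - 1) ≤ 16 * (L / a) * X1 * a ^ 3 := by
            apply mul_le_mul_of_nonneg_left _ (by positivity)
            rw [hw1]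
            linarith
        _ = 16 * L * a ^ 2 * X1 := by
            field_simp
    calc X2 = X2 / ((n : ℝ) - 1) ^ 2 / 8 * (8 * ((n : ℝ) - 1) ^ 2) := h1
      _ ≤ (p + 2 * (L / a) * (X1 / ((n : ℝ) - 1))) * (8 * ((n : ℝ) - 1) ^ 2) :=
          mul_le_mul_of_nonneg_right key2 (by positivity)
      _ = _ := h2
      _ ≤ _ := add_le_add h3 h4
  -- truncation
  set B : ℝ := 32 * L * a ^ 2 with hB
  have hB0 : 0 < B := by positivity
  have htr : X1 ≤ (∑ k ∈ Finset.Icc 1 n, P k * min ((k : ℝ) - 1) B) + X2 / B := by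
    rw [hX1, hX2, sum_div, ← sum_add_distrib]
    apply sum_le_sum
    intro k hk
    rw [mem_Icc] at hk
    have hk1 : (1 : ℝ) ≤ k := by exact_mod_cast hk.1
    rw [mul_div_assoc, ← mul_add]
    apply mul_le_mul_of_nonneg_left _ (hP0 k)
    rcases le_total ((k : ℝ) - 1) B with h1 | h1
    · rw [min_eq_left h1]
      have : 0 ≤ ((k : ℝ) - 1) ^ 2 / B := by positivity
      linarith
    · have h2 : (k : ℝ) - 1 ≤ ((k : ℝ) - 1) ^ 2 / B := by
        rw [le_div_iff₀ hB0]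
        nlinarith
      have h3 : 0 ≤ min ((k : ℝ) - 1) B := le_min (by linarith) hB0.le
      linarith
  have hmin : ∑ k ∈ Finset.Icc 1 n, P k * min ((k : ℝ) - 1) B ≤ 32 * L / c' * (C0 * (Real.sqrt c' * a)) := by
    have h1 := hTA n g0 P ⟨hP0, hP1, hPm⟩ (c' * a ^ 2) (by
      rw [div_le_iff₀ hc'0] at ac
      nlinarith) (by
      rw [hw2]
      apply mul_le_mul_of_nonneg_right (min_le_left _ _) (by positivity))
    have h2 : Real.sqrt (c' * a ^ 2) = Real.sqrt c' * a := by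
      rw [Real.sqrt_mul hc'0.le, Real.sqrt_sq a0.le]
    rw [h2] at h1
    calc ∑ k ∈ Finset.Icc 1 n, P k * min ((k : ℝ) - 1) B ≤
          ∑ k ∈ Finset.Icc 1 n, 32 * L / c' * (P k * min ((k : ℝ) - 1) (c' * a ^ 2)) := by
            apply sum_le_sum
            intro k hk
            rw [mem_Icc] at hk
            have hk1 : (1 : ℝ) ≤ k := by exact_mod_cast hk.1
            have h3 : min ((k : ℝ) - 1) B ≤ 32 * L / c' * min ((k : ℝ) - 1) (c' * a ^ 2) := by
              have h4 : 1 ≤ 32 * L / c' := by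
                rw [le_div_iff₀ hc'0, one_mul]
                exact min_le_right _ _
              rcases le_total ((k : ℝ) - 1) (c' * a ^ 2) with h5 | h5
              · rw [min_eq_left h5]
                exact (min_le_left _ _).trans (le_mul_of_one_le_left (by linarith) h4)
              · rw [min_eq_right h5]
                refine (min_le_right _ _).trans (le_of_eq ?_)
                rw [hB]
                field_simp
            calc P k * min ((k : ℝ) - 1) B ≤ P k * (32 * L / c' * min ((k : ℝ) - 1) (c' * a ^ 2)) :=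
                  mul_le_mul_of_nonneg_left h3 (hP0 k)
              _ = _ := by ring
      _ = 32 * L / c' * ∑ k ∈ Finset.Icc 1 n, P k * min ((k : ℝ) - 1) (c' * a ^ 2) := by rw [mul_sum]
      _ ≤ _ := mul_le_mul_of_nonneg_left h1 (by positivity)
  have hX2B : X2 / B ≤ a / (2 * L) + X1 / 2 := by
    rw [div_le_iff₀ hB0, hB]
    refine key3.trans (le_of_eq ?_)
    field_simp
    ring
  have hfin : X1 ≤ 64 * L / c' * (C0 * (Real.sqrt c' * a)) + a / L := by
    have e1 : a / L = 2 * (a / (2 * L)) := by field_simp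
    have e2 : 64 * L / c' * (C0 * (Real.sqrt c' * a)) = 2 * (32 * L / c' * (C0 * (Real.sqrt c' * a))) := by ring
    rw [e1, e2]
    linarith
  have hsum : ∑ k ∈ Finset.Icc 1 n, P k * (k : ℝ) = X1 + 1 := by
    calc ∑ k ∈ Finset.Icc 1 n, P k * (k : ℝ) = ∑ k ∈ Finset.Icc 1 n, (P k * ((k : ℝ) - 1) + P k) := by
          apply sum_congr rfl
          intro k _
          ring
      _ = X1 + 1 := by rw [sum_add_distrib, hP1]
  rw [hsum]
  calc X1 + 1 ≤ 64 * L / c' * (C0 * (Real.sqrt c' * a)) + a / L + a := by linarith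
    _ = _ := by ring

/-- the binomial coefficients -/
lemma choose_ge {n k m : ℕ} (hm : m < n) (hk : 1 ≤ k) (hkm : k - 1 ≤ n - m) :
    (((n - 1).choose m : ℕ) : ℝ) * (1 - ((k : ℝ) - 1) / ((n : ℝ) - m)) ^ m ≤ (((n - k).choose m : ℕ) : ℝ) := by
  have hf : (0 : ℝ) < (m.factorial : ℝ) := by exact_mod_cast m.factorial_pos
  have e1 : ∀ N : ℕ, ((N.choose m : ℕ) : ℝ) = (∏ i ∈ range m, ((N - i : ℕ) : ℝ)) / m.factorial := by
    intro N
    have h1 := Nat.descFactorial_eq_factorial_mul_choose N m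
    rw [Nat.descFactorial_eq_prod_range] at h1
    rw [eq_div_iff hf.ne', ← Nat.cast_prod, h1]
    push_cast
    ring
  rw [e1, e1, div_mul_eq_mul_div]
  apply div_le_div_of_nonneg_right _ hf.le
  rw [show (1 - ((k : ℝ) - 1) / ((n : ℝ) - m)) ^ m = ∏ _i ∈ range m, (1 - ((k : ℝ) - 1) / ((n : ℝ) - m)) by
    rw [prod_const, card_range], ← prod_mul_distrib]
  have hnm : (0 : ℝ) < (n : ℝ) - m := by
    have : (m : ℝ) < n := by exact_mod_cast hm
    linarith
  have hk1 : (1 : ℝ) ≤ k := by exact_mod_cast hk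
  have hkm' : (k : ℝ) - 1 ≤ (n : ℝ) - m := by
    have : k + m ≤ n + 1 := by omega
    have h2 : ((k + m : ℕ) : ℝ) ≤ ((n + 1 : ℕ) : ℝ) := by exact_mod_cast this
    push_cast at h2
    linarith
  have hy1 : 0 ≤ 1 - ((k : ℝ) - 1) / ((n : ℝ) - m) := by
    rw [sub_nonneg, div_le_one hnm]
    exact hkm'
  apply prod_le_prod
  · intro i _
    exact mul_nonneg (Nat.cast_nonneg _) hy1
  · intro i hi
    rw [mem_range] at hi
    have h1 : ((n - 1 - i : ℕ) : ℝ) = (n : ℝ) - 1 - i := by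
      rw [Nat.sub_sub, Nat.cast_sub (by omega)]
      push_cast
      ring
    have h2 : ((n - k - i : ℕ) : ℝ) = (n : ℝ) - k - i := by
      rw [Nat.sub_sub, Nat.cast_sub (by omega)]
      push_cast
      ring
    rw [h1, h2]
    have h3 : (i : ℝ) + 1 ≤ m := by exact_mod_cast hi
    have h4 : ((k : ℝ) - 1) ≤ ((k : ℝ) - 1) / ((n : ℝ) - m) * ((n : ℝ) - 1 - i) := by
      rw [div_mul_eq_mul_div, le_div_iff₀ hnm]
      apply mul_le_mul_of_nonneg_left _ (by linarith)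
      linarith
    linarith

/-- one term of the identity, small `k` -/
lemma term2 {a δ ν L p : ℝ} {n k m : ℕ} (ha : 0 < a) (hn : a ^ 3 = n) (hp : p = 1 / a ^ 3 + L / a ^ 4) (hp0 : 0 ≤ p) (hp1 : p < 1)
    (hν : 0 ≤ ν) (hm : (m : ℝ) ≤ ν * a ^ 2) (hm2 : 2 * m ≤ n) (hm1 : m < n) (hk : 1 ≤ k) (hkδ : (k : ℝ) ≤ δ * a ^ 2)
    (hδa : 4 * (δ * a ^ 2) ≤ a ^ 3) :
    (((n - 1).choose m : ℕ) : ℝ) / (1 - p) ^ m * (1 - ((k : ℝ) - 1) * (ν * (2 * ν + |L| + 8 * δ) / a ^ 2)) ≤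
      (((n - k).choose m : ℕ) : ℝ) / (1 - p) ^ (m * k) := by
  have hq : 0 < 1 - p := by linarith
  have hk1 : (1 : ℝ) ≤ k := by exact_mod_cast hk
  have hm0 : (0 : ℝ) ≤ m := Nat.cast_nonneg m
  have ha3 : 0 < a ^ 3 := by positivity
  have hm2' : 2 * (m : ℝ) ≤ a ^ 3 := by
    rw [hn]
    exact_mod_cast hm2
  have hnm : a ^ 3 / 2 ≤ (n : ℝ) - m := by
    rw [← hn]
    linarith
  have hnm0 : (0 : ℝ) < (n : ℝ) - m := by linarith
  set y : ℝ := ((k : ℝ) - 1) / ((n : ℝ) - m) with hy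
  have hy0 : 0 ≤ y := div_nonneg (by linarith) hnm0.le
  have hy1 : y ≤ 1 / 2 := by
    rw [hy, div_le_iff₀ hnm0]
    linarith
  have h1 := choose_ge (n := n) (k := k) (m := m) hm1 hk (by
    have : (k : ℝ) - 1 ≤ (n : ℝ) - m := by
      have := hy1
      rw [hy, div_le_iff₀ hnm0] at this
      linarith
    have h2 : ((k + m : ℕ) : ℝ) ≤ ((n + 1 : ℕ) : ℝ) := by
      push_cast
      linarith
    have h3 : k + m ≤ n + 1 := by exact_mod_cast h2
    omega)
  have hC : (0 : ℝ) ≤ (((n - 1).choose m : ℕ) : ℝ) := Nat.cast_nonneg _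
  have h2 : Real.exp (-(m * (y + 2 * y ^ 2))) ≤ (1 - y) ^ m := by
    calc Real.exp (-(m * (y + 2 * y ^ 2))) = (Real.exp (-(y + 2 * y ^ 2))) ^ m := by
          rw [← Real.exp_nat_mul]
          congr 1
          ring
      _ ≤ _ := pow_le_pow_left₀ (Real.exp_pos _).le (ge_exp hy0 hy1) m
  obtain ⟨j, rfl⟩ : ∃ j, k = j + 1 := ⟨k - 1, by omega⟩
  have h3 : (1 - p) ^ (m * j) ≤ Real.exp (-(p * (m * j))) := by
    have := Real.add_one_le_exp (-p)
    calc (1 - p) ^ (m * j) ≤ (Real.exp (-p)) ^ (m * j) := pow_le_pow_left₀ hq.le (by linarith) _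
      _ = _ := by
          rw [← Real.exp_nat_mul]
          congr 1
          push_cast
          ring
  have h4 : Real.exp (p * (m * j)) ≤ ((1 - p) ^ (m * j))⁻¹ := by
    rw [le_inv_comm₀ (Real.exp_pos _) (by positivity), ← Real.exp_neg]
    exact h3
  set T : ℝ := m * (y + 2 * y ^ 2) - p * (m * j) with hT
  have h5 : 1 - T ≤ Real.exp (-(m * (y + 2 * y ^ 2))) * Real.exp (p * (m * j)) := by
    rw [← Real.exp_add]
    have := Real.add_one_le_exp (-(m * (y + 2 * y ^ 2)) + p * (m * j))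
    rw [hT]
    linarith
  have hj : (j : ℝ) = ((j + 1 : ℕ) : ℝ) - 1 := by
    push_cast
    ring
  have hj0 : (0 : ℝ) ≤ j := Nat.cast_nonneg j
  have h6 : T ≤ (((j + 1 : ℕ) : ℝ) - 1) * (ν * (2 * ν + |L| + 8 * δ) / a ^ 2) := by
    rw [← hj]
    have hyj : y = j / ((n : ℝ) - m) := by rw [hy, ← hj]
    have e1 : 1 / ((n : ℝ) - m) ≤ 1 / a ^ 3 + 2 * m / (a ^ 3) ^ 2 := by
      rw [← hn, div_add_div _ _ (by positivity) (by positivity), div_le_div_iff₀ (by rw [hn]; exact hnm0) (by positivity)]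
      nlinarith [mul_nonneg hm0 (show 0 ≤ a ^ 3 - 2 * m by linarith), pow_pos ha3 2, mul_nonneg (mul_nonneg hm0 (show 0 ≤ a ^ 3 - 2 * m by linarith)) ha3.le]
    have e2 : 2 * (j : ℝ) / ((n : ℝ) - m) ^ 2 ≤ 8 * δ / a ^ 4 := by
      have hjδ : (j : ℝ) ≤ δ * a ^ 2 := by
        push_cast at hkδ
        linarith
      calc 2 * (j : ℝ) / ((n : ℝ) - m) ^ 2 ≤ 2 * (δ * a ^ 2) / (a ^ 3 / 2) ^ 2 := by
            have : (a ^ 3 / 2) ^ 2 ≤ ((n : ℝ) - m) ^ 2 := pow_le_pow_left₀ (by positivity) hnm 2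
            have hd : 0 ≤ δ * a ^ 2 := hj0.trans hjδ
            gcongr
        _ = 8 * δ / a ^ 4 := by
            field_simp
            ring
    have e3 : -p ≤ -(1 / a ^ 3) + |L| / a ^ 4 := by
      rw [hp]
      have : -(L / a ^ 4) ≤ |L| / a ^ 4 := by
        rw [← neg_div]
        exact div_le_div_of_nonneg_right (neg_le_abs L) (by positivity)
      linarith
    have e4 : 2 * (m : ℝ) / (a ^ 3) ^ 2 ≤ 2 * ν / a ^ 4 := by
      calc 2 * (m : ℝ) / (a ^ 3) ^ 2 ≤ 2 * (ν * a ^ 2) / (a ^ 3) ^ 2 := by gcongr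
        _ = _ := by field_simp
    have e5 : T = (m * j) * (1 / ((n : ℝ) - m) + 2 * j / ((n : ℝ) - m) ^ 2 - p) := by
      rw [hT, hyj]
      field_simp
    have e6 : 1 / ((n : ℝ) - m) + 2 * j / ((n : ℝ) - m) ^ 2 - p ≤ (2 * ν + |L| + 8 * δ) / a ^ 4 := by
      have : (2 * ν + |L| + 8 * δ) / a ^ 4 = 2 * ν / a ^ 4 + |L| / a ^ 4 + 8 * δ / a ^ 4 := by ring
      rw [this]
      linarith
    have hδ0 : 0 ≤ δ := by
      have : 0 < δ * a ^ 2 := by linarith
      by_contra hcon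
      rw [not_le] at hcon
      nlinarith [mul_pos ha ha]
    calc T = (m * j) * (1 / ((n : ℝ) - m) + 2 * j / ((n : ℝ) - m) ^ 2 - p) := e5
      _ ≤ (m * j) * ((2 * ν + |L| + 8 * δ) / a ^ 4) := mul_le_mul_of_nonneg_left e6 (by positivity)
      _ ≤ (ν * a ^ 2 * j) * ((2 * ν + |L| + 8 * δ) / a ^ 4) := by
          have := abs_nonneg L
          apply mul_le_mul_of_nonneg_right _ (by positivity)
          exact mul_le_mul_of_nonneg_right hm hj0
      _ = _ := by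
          field_simp
  calc (((n - 1).choose m : ℕ) : ℝ) / (1 - p) ^ m * (1 - (((j + 1 : ℕ) : ℝ) - 1) * (ν * (2 * ν + |L| + 8 * δ) / a ^ 2)) ≤
        (((n - 1).choose m : ℕ) : ℝ) / (1 - p) ^ m * (Real.exp (-(m * (y + 2 * y ^ 2))) * Real.exp (p * (m * j))) := by
          apply mul_le_mul_of_nonneg_left _ (by positivity)
          linarith
    _ ≤ (((n - 1).choose m : ℕ) : ℝ) / (1 - p) ^ m * ((1 - y) ^ m * ((1 - p) ^ (m * j))⁻¹) := by
          apply mul_le_mul_of_nonneg_left _ (by positivity)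
          exact mul_le_mul h2 h4 (Real.exp_pos _).le (pow_nonneg (by linarith) m)
    _ = ((((n - 1).choose m : ℕ) : ℝ) * (1 - y) ^ m) / (1 - p) ^ (m * (j + 1)) := by
          rw [Nat.mul_succ, pow_add]
          field_simp
    _ ≤ _ := div_le_div_of_nonneg_right h1 (by positivity)

theorem tc (h : S_TA) : S_TC := by
  intro lam
  obtain ⟨C, c0, hC, hc0, N0, hTA⟩ := h lam
  set ε : ℝ := 1 / (48 * C) with hε
  have hε0 : 0 < ε := by positivity
  have hCε : 3 * ε ^ 2 * C = ε / 16 := by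
    rw [hε]
    field_simp
    norm_num
  -- δ₀
  set δ₀ : ℝ := min (min c0 1) ((ε / (|lam| + 8)) ^ 2) with hδ₀
  have hl := abs_nonneg lam
  have hδ₀0 : 0 < δ₀ := lt_min (lt_min hc0 one_pos) (by positivity)
  refine ⟨ε / 16, δ₀, by positivity, hδ₀0, ?_⟩
  intro δ hδ hδ1
  have d1 : δ ≤ c0 := hδ1.trans ((min_le_left _ _).trans (min_le_left _ _))
  have d2 : δ ≤ 1 := hδ1.trans ((min_le_left _ _).trans (min_le_right _ _))
  have d3 : δ ≤ (ε / (|lam| + 8)) ^ 2 := hδ1.trans (min_le_right _ _)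
  set σ : ℝ := Real.sqrt δ with hσ
  have hσ0 : 0 < σ := Real.sqrt_pos.2 hδ
  have hσ2 : σ ^ 2 = δ := Real.sq_sqrt hδ.le
  have hσ3 : σ ≤ ε / (|lam| + 8) := by
    rw [hσ]
    exact (Real.sqrt_le_sqrt d3).trans (le_of_eq (Real.sqrt_sq (by positivity)))
  have hσ4 : |lam| + 8 * δ ≤ ε / σ := by
    rw [le_div_iff₀ hσ0]
    rw [le_div_iff₀ (by positivity)] at hσ3
    nlinarith
  set ν : ℝ := ε / σ with hν
  have hν0 : 0 < ν := by positivity
  obtain ⟨N1, hN1⟩ := big (max (max 4 (2 * (|lam| + 1))) (max (max (2 * ν) (2 / ν)) (max (1 / δ) (4 * δ))))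
  refine ⟨max N0 (max N1 2), ?_⟩
  intro n hn P hP
  have g0 : N0 ≤ n := (le_max_left _ _).trans hn
  have g1 := hN1 n (((le_max_left _ _).trans (le_max_right _ _)).trans hn)
  have g2 : 2 ≤ n := ((le_max_right _ _).trans (le_max_right _ _)).trans hn
  obtain ⟨hw1, hw2, hw4⟩ := pw n
  have hpc := pc_eq lam n
  rw [hw2]
  set a : ℝ := (n : ℝ) ^ (1 / 3 : ℝ) with ha
  simp only [max_le_iff] at g1
  obtain ⟨⟨a4, aL⟩, ⟨aν, aν'⟩, aδ, aδ'⟩ := g1
  have a0 : 0 < a := by linarith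
  obtain ⟨hP0, hP1, hPm⟩ := hP
  obtain ⟨p1, p2, p3, p4⟩ := pc_bd a4 aL hpc
  set p : ℝ := pc lam n with hp
  have hp0 : 0 ≤ p := le_trans (by positivity) p1
  have hq : 0 < 1 - p := by linarith
  -- m
  set m : ℕ := ⌊ν * a ^ 2⌋₊ with hm
  have hm1 : (m : ℝ) ≤ ν * a ^ 2 := Nat.floor_le (by positivity)
  have hm2 : ν * a ^ 2 / 2 ≤ (m : ℝ) := by
    have h1 : ν * a ^ 2 < m + 1 := Nat.lt_floor_add_one _
    have h2 : 2 ≤ ν * a ^ 2 := by
      rw [div_le_iff₀ hν0] at aν'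
      nlinarith
    linarith
  have hm3 : 2 * m ≤ n := by
    have h1 : ((2 * m : ℕ) : ℝ) ≤ (n : ℝ) := by
      push_cast
      rw [← hw1]
      nlinarith [mul_pos a0 a0]
    exact_mod_cast h1
  have hm4 : m < n := by omega
  have hid := hPm m hm4
  set A : ℝ := (((n - 1).choose m : ℕ) : ℝ) with hA
  have hA0 : 0 < A := by
    rw [hA]
    exact_mod_cast Nat.choose_pos (by omega)
  set τ : ℝ := ν * (2 * ν + |lam| + 8 * δ) / a ^ 2 with hτ
  have hτ0 : 0 ≤ τ := by positivity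
  -- the sum over small k
  have hsplit : ∑ k ∈ (Finset.Icc 1 n).filter (fun k : ℕ => δ * a ^ 2 < (k : ℝ)), P k +
      ∑ k ∈ (Finset.Icc 1 n).filter (fun k : ℕ => ¬ δ * a ^ 2 < (k : ℝ)), P k = 1 := by
    rw [sum_filter_add_sum_filter_not, hP1]
  set Q : ℝ := ∑ k ∈ (Finset.Icc 1 n).filter (fun k : ℕ => δ * a ^ 2 < (k : ℝ)), P k with hQ
  have hlow : A / (1 - p) ^ m * (∑ k ∈ (Finset.Icc 1 n).filter (fun k : ℕ => ¬ δ * a ^ 2 < (k : ℝ)), P k * (1 - ((k : ℝ) - 1) * τ)) ≤ A := by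
    calc A / (1 - p) ^ m * (∑ k ∈ (Finset.Icc 1 n).filter (fun k : ℕ => ¬ δ * a ^ 2 < (k : ℝ)), P k * (1 - ((k : ℝ) - 1) * τ)) =
          ∑ k ∈ (Finset.Icc 1 n).filter (fun k : ℕ => ¬ δ * a ^ 2 < (k : ℝ)), P k * (A / (1 - p) ^ m * (1 - ((k : ℝ) - 1) * τ)) := by
            rw [mul_sum]
            apply sum_congr rfl
            intro k _
            ring
      _ ≤ ∑ k ∈ (Finset.Icc 1 n).filter (fun k : ℕ => ¬ δ * a ^ 2 < (k : ℝ)),
            P k * ((((n - k).choose m : ℕ) : ℝ) / (1 - p) ^ (m * k)) := by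
            apply sum_le_sum
            intro k hk
            rw [mem_filter, mem_Icc, not_lt] at hk
            apply mul_le_mul_of_nonneg_left _ (hP0 k)
            apply term2 a0 hw1 hpc hp0 (by linarith) hν0.le hm1 hm3 hm4 hk.1.1 hk.2
            nlinarith [mul_pos a0 a0]
      _ ≤ ∑ k ∈ Finset.Icc 1 n, P k * ((((n - k).choose m : ℕ) : ℝ) / (1 - p) ^ (m * k)) := by
            apply sum_le_sum_of_subset_of_nonneg (filter_subset _ _)
            intro k _ _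
            exact mul_nonneg (hP0 k) (div_nonneg (Nat.cast_nonneg _) (pow_nonneg hq.le _))
      _ = A := hid
  have hlow2 : ∑ k ∈ (Finset.Icc 1 n).filter (fun k : ℕ => ¬ δ * a ^ 2 < (k : ℝ)), P k * (1 - ((k : ℝ) - 1) * τ) ≤ (1 - p) ^ m := by
    rw [div_mul_eq_mul_div, div_le_iff₀ (by positivity)] at hlow
    exact le_of_mul_le_mul_left hlow hA0
  have hE : ∑ k ∈ (Finset.Icc 1 n).filter (fun k : ℕ => ¬ δ * a ^ 2 < (k : ℝ)), P k * ((k : ℝ) - 1) ≤ C * (σ * a) := by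
    have h1 := hTA n g0 P ⟨hP0, hP1, hPm⟩ (δ * a ^ 2) (by
      rw [div_le_iff₀ hδ] at aδ
      nlinarith) (by
      rw [hw2]
      exact mul_le_mul_of_nonneg_right d1 (by positivity))
    rw [Real.sqrt_mul hδ.le, Real.sqrt_sq a0.le] at h1
    refine le_trans ?_ h1
    calc ∑ k ∈ (Finset.Icc 1 n).filter (fun k : ℕ => ¬ δ * a ^ 2 < (k : ℝ)), P k * ((k : ℝ) - 1) ≤
          ∑ k ∈ (Finset.Icc 1 n).filter (fun k : ℕ => ¬ δ * a ^ 2 < (k : ℝ)), P k * min ((k : ℝ) - 1) (δ * a ^ 2) := by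
            apply sum_le_sum
            intro k hk
            rw [mem_filter, mem_Icc, not_lt] at hk
            rw [min_eq_left (by linarith [hk.2])]
      _ ≤ _ := by
            apply sum_le_sum_of_subset_of_nonneg (filter_subset _ _)
            intro k hk _
            rw [mem_Icc] at hk
            have hk1 : (1 : ℝ) ≤ k := by exact_mod_cast hk.1
            exact mul_nonneg (hP0 k) (le_min (by linarith) (by positivity))
  have hsum2 : ∑ k ∈ (Finset.Icc 1 n).filter (fun k : ℕ => ¬ δ * a ^ 2 < (k : ℝ)), P k * (1 - ((k : ℝ) - 1) * τ) =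
      (1 - Q) - τ * ∑ k ∈ (Finset.Icc 1 n).filter (fun k : ℕ => ¬ δ * a ^ 2 < (k : ℝ)), P k * ((k : ℝ) - 1) := by
    have : 1 - Q = ∑ k ∈ (Finset.Icc 1 n).filter (fun k : ℕ => ¬ δ * a ^ 2 < (k : ℝ)), P k := by linarith
    rw [this, mul_sum, ← sum_sub_distrib]
    apply sum_congr rfl
    intro k _
    ring
  have hmain : 1 - (1 - p) ^ m - τ * (C * (σ * a)) ≤ Q := by
    have h1 := mul_le_mul_of_nonneg_left hE hτ0
    rw [hsum2] at hlow2
    linarith
  have hup : ν / (8 * a) ≤ 1 - (1 - p) ^ m := by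
    have h1 : (1 - p) ^ m ≤ Real.exp (-(p * m)) := by
      have := Real.add_one_le_exp (-p)
      calc (1 - p) ^ m ≤ (Real.exp (-p)) ^ m := pow_le_pow_left₀ hq.le (by linarith) _
        _ = _ := by
            rw [← Real.exp_nat_mul]
            congr 1
            ring
    have h2 : p * m ≤ 1 := by
      calc p * m ≤ (2 / a ^ 3) * (ν * a ^ 2) := by
            apply mul_le_mul p2 hm1 (Nat.cast_nonneg m) (by positivity)
        _ = 2 * ν / a := by
            field_simp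
        _ ≤ 1 := by
            rw [div_le_one a0]
            exact aν
    have h3 : ν / (4 * a) ≤ p * m := by
      calc ν / (4 * a) = (1 / (2 * a ^ 3)) * (ν * a ^ 2 / 2) := by
            field_simp
            ring
        _ ≤ p * m := mul_le_mul p1 hm2 (by positivity) hp0
    have h0 : 0 ≤ p * m := mul_nonneg hp0 (Nat.cast_nonneg m)
    have h4 := one_sub_exp (w := p * m) (u := p * m) (v := 0) (by ring) h0 h2 le_rfl (by norm_num)
    have h5 : ν / (8 * a) = ν / (4 * a) / 2 := by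
      field_simp
      ring
    rw [h5]
    linarith
  refine le_trans ?_ hmain
  have hτ1 : τ * (C * (σ * a)) ≤ 3 * ε ^ 2 * C / (σ * a) := by
    have h1 : 2 * ν + |lam| + 8 * δ ≤ 3 * ν := by linarith
    calc τ * (C * (σ * a)) ≤ (ν * (3 * ν) / a ^ 2) * (C * (σ * a)) := by
          apply mul_le_mul_of_nonneg_right _ (by positivity)
          rw [hτ]
          gcongr
      _ = 3 * ε ^ 2 * C / (σ * a) := by
          rw [hν]
          field_simp
  have hνa : ν / (8 * a) = (ε / 8) / (σ * a) := by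
    rw [hν]
    field_simp
  calc ε / 16 / (σ * a) = (ε / 8) / (σ * a) - 3 * ε ^ 2 * C / (σ * a) := by
        rw [hCε]
        ring
    _ ≤ _ := by
        rw [← hνa]
        linarith

end Pool.Agent.Q162.ER
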